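import Mathlib

/-!
# The set of turbulent points is always `G_δ`

For every Polish group `G` and every Polish `G`-space `X` the set of turbulent points of `X` is a
`G_δ` set.
-/

set_option autoImplicit false

open Set Topology TopologicalSpace Filter

namespace Pool.Agent.Results.MP_6b7ad2_lc.TurbulentGdelta

section defs

variable {G X : Type*} [Group G] [MulAction G X]

/-- The `(U, V)`-local graph: `x R y` iff `x, y ∈ U` and `g • x = y` for some `g ∈ V`. -/
def R (U : Set X) (V : Set G) (x y : X) : Prop := x ∈ U ∧ y ∈ U ∧ ∃ g ∈ V, g • x = y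

/-- The local orbit `𝒪(x, U, V)` of `x ∈ U`: all points reached from `x` by a finite chain of steps
of the local graph (for symmetric `V` this is the connected component of `x`). -/
def LocalOrbit (x : X) (U : Set X) (V : Set G) : Set X := {y | Relation.ReflTransGen (R U V) x y}

/-- `x` is turbulent: for every open `U ∋ x` and every symmetric open neighbourhood `V` of `1` the
closure of the local orbit `𝒪(x, U, V)` has nonempty interior. -/
def Turbulent (G : Type*) {X : Type*} [Group G] [MulAction G X] [TopologicalSpace G]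
    [TopologicalSpace X] (x : X) : Prop :=
  ∀ U : Set X, IsOpen U → x ∈ U → ∀ V : Set G, IsOpen V → 1 ∈ V → V⁻¹ = V →
    (interior (closure (LocalOrbit x U V))).Nonempty

end defs

section basic

variable {G X : Type*} [Group G] [MulAction G X] {U : Set X} {V : Set G}

theorem R_symm (hV : V⁻¹ = V) {x y : X} (h : R U V x y) : R U V y x := by
  obtain ⟨hx, hy, g, hg, hgx⟩ := h
  refine ⟨hy, hx, g⁻¹, ?_, ?_⟩
  · rw [← hV]
    exact Set.inv_mem_inv.2 hg
  · rw [← hgx, inv_smul_smul]

theorem reach_symm (hV : V⁻¹ = V) {x y : X} (h : Relation.ReflTransGen (R U V) x y) :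
    Relation.ReflTransGen (R U V) y x := by
  induction h with
  | refl => exact Relation.ReflTransGen.refl
  | tail _ h ih => exact (Relation.ReflTransGen.single (R_symm hV h)).trans ih

theorem orbit_mono {x : X} {U' : Set X} {V' : Set G} (hU : U ⊆ U') (hV : V ⊆ V') :
    LocalOrbit x U V ⊆ LocalOrbit x U' V' := by
  intro y hy
  have hy' : Relation.ReflTransGen (R U V) x y := hy
  change Relation.ReflTransGen (R U' V') x y
  induction hy' with
  | refl => exact Relation.ReflTransGen.refl
  | tail h1 h ih =>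
    exact Relation.ReflTransGen.tail (ih h1)
      ⟨hU h.1, hU h.2.1, h.2.2.imp fun g hg => ⟨hV hg.1, hg.2⟩⟩

theorem orbit_subset {x : X} (hx : x ∈ U) : LocalOrbit x U V ⊆ U := by
  intro y hy
  induction hy with
  | refl => exact hx
  | tail _ h _ => exact h.2.1

end basic

section top

variable {G X : Type*} [Group G] [MulAction G X] [TopologicalSpace X] [ContinuousConstSMul G X]
  {U : Set X} {V : Set G}

/-- The closure of a local orbit is invariant under the local moves. -/
theorem closure_step {x z w : X} (hU : IsOpen U) (hz : z ∈ closure (LocalOrbit x U V))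
    (h : R U V z w) : w ∈ closure (LocalOrbit x U V) := by
  obtain ⟨hzU, hwU, g, hg, hgz⟩ := h
  rw [mem_closure_iff_nhds] at hz ⊢
  intro N hN
  have hcont : ContinuousAt (fun y : X => g • y) z := (continuous_const_smul g).continuousAt
  have h1 : (fun y : X => g • y) ⁻¹' (N ∩ U) ∈ 𝓝 z := by
    apply hcont
    change N ∩ U ∈ 𝓝 (g • z)
    rw [hgz]
    exact inter_mem hN (hU.mem_nhds hwU)
  obtain ⟨y, ⟨hy1, hyU⟩, hy2⟩ := hz _ (inter_mem h1 (hU.mem_nhds hzU))
  refine ⟨g • y, hy1.1, ?_⟩
  exact Relation.ReflTransGen.tail hy2 ⟨hyU, hy1.2, g, hg, rfl⟩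

theorem closure_reach {x z w : X} (hU : IsOpen U) (hz : z ∈ closure (LocalOrbit x U V))
    (h : Relation.ReflTransGen (R U V) z w) : w ∈ closure (LocalOrbit x U V) := by
  induction h with
  | refl => exact hz
  | tail _ h ih => exact closure_step hU ih h

theorem closure_sub {x z : X} (hU : IsOpen U) (hz : z ∈ closure (LocalOrbit x U V)) :
    closure (LocalOrbit z U V) ⊆ closure (LocalOrbit x U V) :=
  isClosed_closure.closure_subset_iff.2 fun _ hw => closure_reach hU hz hw

/-- the points of `U` whose local orbit meets `W` -/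
def Sat (U : Set X) (V : Set G) (W : Set X) : Set X := {x | x ∈ U ∧ (LocalOrbit x U V ∩ W).Nonempty}

theorem sat_open (hU : IsOpen U) {W : Set X} (hW : IsOpen W) : IsOpen (Sat U V W) := by
  rw [isOpen_iff_mem_nhds]
  rintro x ⟨hxU, y, hxy, hyW⟩
  -- `x` reaches `y`; induct from the end
  have key : ∀ y, Relation.ReflTransGen (R U V) x y → ∀ N ∈ 𝓝 y,
      ∃ M ∈ 𝓝 x, ∀ z ∈ M, z ∈ U ∧ (LocalOrbit z U V ∩ N).Nonempty := by
    intro y hxy
    induction hxy with
    | refl =>
      intro N hN
      refine ⟨N ∩ U, inter_mem hN (hU.mem_nhds hxU), fun z hz => ⟨hz.2, z, ?_, hz.1⟩⟩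
      exact Relation.ReflTransGen.refl
    | @tail b c _ h ih =>
      intro N hN
      obtain ⟨hbU, hcU, g, hg, hgb⟩ := h
      have hcont : ContinuousAt (fun y : X => g • y) b := (continuous_const_smul g).continuousAt
      have h1 : (fun y : X => g • y) ⁻¹' (N ∩ U) ∈ 𝓝 b := by
        apply hcont
        change N ∩ U ∈ 𝓝 (g • b)
        rw [hgb]
        exact inter_mem hN (hU.mem_nhds hcU)
      obtain ⟨M, hM, hMz⟩ := ih _ (inter_mem h1 (hU.mem_nhds hbU))
      refine ⟨M, hM, fun z hz => ⟨(hMz z hz).1, ?_⟩⟩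
      obtain ⟨w, hw1, hw2, hwU⟩ := (hMz z hz).2
      exact ⟨g • w, Relation.ReflTransGen.tail hw1 ⟨hwU, hw2.2, g, hg, rfl⟩, hw2.1⟩
  obtain ⟨M, hM, hMz⟩ := key y hxy W (hW.mem_nhds hyW)
  exact mem_of_superset hM fun z hz => hMz z hz

/-- the points of `U` whose local orbit is dense in `W` -/
def Dn (U : Set X) (V : Set G) (W : Set X) : Set X := {x | x ∈ U ∧ W ⊆ closure (LocalOrbit x U V)}

theorem dn_gdelta [SecondCountableTopology X] (hU : IsOpen U) {W : Set X} (hW : IsOpen W) :
    IsGδ (Dn U V W) := by
  have h : Dn U V W = U ∩ ⋂ B ∈ {B | B ∈ countableBasis X ∧ (B ∩ W).Nonempty}, Sat U V (B ∩ W) := by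
    ext x
    constructor
    · rintro ⟨hx, hd⟩
      refine ⟨hx, ?_⟩
      simp only [mem_iInter]
      rintro B ⟨hB, y, hy⟩
      refine ⟨hx, ?_⟩
      have h1 := mem_closure_iff.1 (hd hy.2) (B ∩ W)
        ((isBasis_countableBasis X).isOpen hB |>.inter hW) hy
      rwa [inter_comm] at h1
    · rintro ⟨hx, hd⟩
      refine ⟨hx, fun y hy => ?_⟩
      simp only [mem_iInter] at hd
      rw [mem_closure_iff]
      intro O hO hyO
      obtain ⟨B, hB, hyB, hBO⟩ := (isBasis_countableBasis X).exists_subset_of_mem_open hyO hO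
      obtain ⟨_, z, hz1, hz2, _⟩ := hd B ⟨hB, y, hyB, hy⟩
      exact ⟨z, hBO hz2, hz1⟩
  rw [h]
  apply hU.isGδ.inter
  apply IsGδ.biInter ((countable_countableBasis X).mono fun B hB => hB.1)
  intro B hB
  exact (sat_open hU ((isBasis_countableBasis X).isOpen hB.1 |>.inter hW)).isGδ

/-- the points of `U` whose local orbit is somewhere dense -/
def Sd (U : Set X) (V : Set G) : Set X :=
  {x | x ∈ U ∧ (interior (closure (LocalOrbit x U V))).Nonempty}

/-- the key identity -/
theorem key_identity (hU : IsOpen U) (hV : V⁻¹ = V) {W : Set X}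
    (hW : (Dn U V W).Nonempty) : Sd U V ∩ Sat U V W ⊆ Dn U V W := by
  rintro x ⟨⟨hxU, hint⟩, _, z, hz, hzW⟩
  refine ⟨hxU, ?_⟩
  obtain ⟨y, hyU, hyW⟩ := hW
  set W' := interior (closure (LocalOrbit x U V)) with hW'
  -- the closure of the orbit of `x` is contained in the one of `y`
  have h1 : x ∈ closure (LocalOrbit y U V) := closure_reach hU (hyW hzW) (reach_symm hV hz)
  have h2 := closure_sub hU h1
  -- so the orbit of `y` meets `W'`
  obtain ⟨v, hv⟩ := hint
  have h3 : v ∈ closure (LocalOrbit y U V) := h2 (interior_subset hv)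
  obtain ⟨u, huW, hu⟩ := mem_closure_iff.1 h3 W' isOpen_interior hv
  have h4 : u ∈ closure (LocalOrbit x U V) := interior_subset huW
  have h5 : y ∈ closure (LocalOrbit x U V) := closure_reach hU h4 (reach_symm hV hu)
  exact hyW.trans (closure_sub hU h5)

theorem sd_gdelta [SecondCountableTopology X] [MetrizableSpace X] (hU : IsOpen U)
    (hV : V⁻¹ = V) : IsGδ (Sd U V) := by
  classical
  set 𝒲 : Set (Set X) := {W | W ∈ countableBasis X ∧ (Dn U V W).Nonempty} with h𝒲
  have hopen : ∀ W ∈ 𝒲, IsOpen W := fun W hW => (isBasis_countableBasis X).isOpen hW.1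
  have hc : 𝒲.Countable := (countable_countableBasis X).mono fun B hB => hB.1
  have hne : ∀ W ∈ 𝒲, W.Nonempty := fun W hW =>
    nonempty_of_mem_countableBasis hW.1
  have h : Sd U V = (⋃ W ∈ 𝒲, Sat U V W) ∩ ⋂ W ∈ 𝒲, ((Sat U V W)ᶜ ∪ Dn U V W) := by
    ext x
    constructor
    · intro hx
      constructor
      · obtain ⟨hxU, v, hv⟩ := hx
        obtain ⟨W, hW, hvW, hsub⟩ :=
          (isBasis_countableBasis X).exists_subset_of_mem_open hv isOpen_interior
        have hD : x ∈ Dn U V W := ⟨hxU, hsub.trans interior_subset⟩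
        refine mem_biUnion (x := W) ⟨hW, x, hD⟩ ⟨hxU, ?_⟩
        have h1 := mem_closure_iff.1 (interior_subset hv) W
          ((isBasis_countableBasis X).isOpen hW) hvW
        rwa [inter_comm] at h1
      · simp only [mem_iInter]
        intro W hW
        by_cases hs : x ∈ Sat U V W
        · exact Or.inr (key_identity hU hV hW.2 ⟨hx, hs⟩)
        · exact Or.inl hs
    · rintro ⟨h1, h2⟩
      simp only [mem_iUnion] at h1
      simp only [mem_iInter] at h2
      obtain ⟨W, hW, hs⟩ := h1
      rcases h2 W hW with h3 | h3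
      · exact absurd hs h3
      · refine ⟨h3.1, ?_⟩
        obtain ⟨w, hw⟩ := hne W hW
        exact ⟨w, (interior_maximal h3.2 (hopen W hW)) hw⟩
  rw [h]
  apply IsGδ.inter
  · exact (isOpen_biUnion fun W hW => sat_open hU (hopen W hW)).isGδ
  · apply IsGδ.biInter hc
    intro W hW
    exact (sat_open hU (hopen W hW)).isClosed_compl.isGδ.union (dn_gdelta hU (hopen W hW))

end top

/-- **Main theorem**, general form: if the action is by homeomorphisms on a second countable
metrizable space and the group is first countable, then the set of turbulent points is `G_δ`. -/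
theorem general {G X : Type*} [Group G] [TopologicalSpace G] [IsTopologicalGroup G]
    [FirstCountableTopology G] [TopologicalSpace X] [SecondCountableTopology X]
    [MetrizableSpace X] [MulAction G X] [ContinuousConstSMul G X] :
    IsGδ {x : X | Turbulent G x} := by
  obtain ⟨B, hB⟩ := (𝓝 (1 : G)).exists_antitone_basis
  -- symmetric open neighbourhoods
  let V : ℕ → Set G := fun n => interior (B n) ∩ (interior (B n))⁻¹
  have hVo : ∀ n, IsOpen (V n) := fun n => isOpen_interior.inter isOpen_interior.inv
  have hV1 : ∀ n, (1 : G) ∈ V n := by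
    intro n
    have h1 : (1 : G) ∈ interior (B n) := mem_interior_iff_mem_nhds.2 (hB.1.mem_of_mem trivial)
    exact ⟨h1, by simpa using h1⟩
  have hVs : ∀ n, (V n)⁻¹ = V n := by
    intro n
    simp only [V, inter_inv, inv_inv]
    exact inter_comm _ _
  have h : {x : X | Turbulent G x} =
      ⋂ U ∈ countableBasis X, ⋂ n : ℕ, (Uᶜ ∪ Sd U (V n)) := by
    ext x
    simp only [mem_iInter]
    constructor
    · intro hx U hU n
      by_cases hxU : x ∈ U
      · exact Or.inr ⟨hxU, hx U ((isBasis_countableBasis X).isOpen hU) hxU (V n) (hVo n) (hV1 n)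
          (hVs n)⟩
      · exact Or.inl hxU
    · intro hx U hU hxU W hW hW1 _
      obtain ⟨U', hU', hxU', hsub⟩ := (isBasis_countableBasis X).exists_subset_of_mem_open hxU hU
      obtain ⟨n, _, hn⟩ := hB.1.mem_iff.1 (hW.mem_nhds hW1)
      have hVW : V n ⊆ W := inter_subset_left.trans (interior_subset.trans hn)
      rcases hx U' hU' n with h1 | h1
      · exact absurd hxU' h1
      · exact h1.2.mono (interior_mono (closure_mono (orbit_mono hsub hVW)))
  rw [h]
  apply IsGδ.biInter (countable_countableBasis X)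
  intro U hU
  apply IsGδ.iInter
  intro n
  have hUo := (isBasis_countableBasis X).isOpen hU
  exact hUo.isClosed_compl.isGδ.union (sd_gdelta hUo (hVs n))

/-- For every Polish group `G` and every Polish `G`-space `X`, the set of turbulent points of `X`
is a `G_δ` subset of `X`. -/
theorem result (G X : Type*) [Group G] [TopologicalSpace G] [IsTopologicalGroup G] [PolishSpace G]
    [TopologicalSpace X] [PolishSpace X] [MulAction G X] [ContinuousSMul G X] :
    IsGδ {x : X | Turbulent G x} :=
  general

end Pool.Agent.Results.MP_6b7ad2_lc.TurbulentGdelta
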